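import Pool.Agent.Y503.RB.Def2

/-!
Countably many local parametrisations of a surface in the open ball.
-/

set_option autoImplicit false

namespace Pool.Agent.Y487.RB

open scoped ContDiff RealInnerProductSpace ENNReal Topology
open MeasureTheory Set Metric
open Pool.Agent.Y503.RB

theorem bpatch_empty : BPatch 0 ∅ where
  isOpen := isOpen_empty
  smooth := fun _ hz => hz.elim
  imm := fun _ hz => hz.elim
  emb := ⟨⟨Subsingleton.elim _ _⟩, fun a => a.2.elim⟩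
  trans := fun _ hz => hz.elim

theorem patch_empty : Patch 0 ∅ where
  isOpen := isOpen_empty
  smooth := fun _ hz => hz.elim
  imm := fun _ hz => hz.elim
  inside := fun _ hz => hz.elim

theorem bpatch_mono {φ : ℂ → E4} {U U1 : Set ℂ} (h : BPatch φ U) (h1 : IsOpen U1)
    (h2 : U1 ⊆ U) : BPatch φ U1 where
  isOpen := h1
  smooth := h.smooth.mono h2
  imm := fun z hz => h.imm z (h2 hz)
  emb := h.emb.comp (Topology.IsEmbedding.inclusion h2)
  trans := fun z hz => h.trans z (h2 hz)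

theorem loc_ball {F : Set E4} (hF : PSurf F) (p : E4) (hp : p ∈ F ∩ ball 0 1) :
    ∃ (φ : ℂ → E4) (U : Set ℂ) (V : Set E4), BPatch φ U ∧ Patch φ U ∧ IsOpen V ∧ p ∈ V ∧
      F ∩ V = φ '' U := by
  obtain ⟨φ, U, V, hb, hV, hpV, hFV⟩ := hF.loc p hp.1
  have hU1 : IsOpen (U ∩ φ ⁻¹' ball 0 1) :=
    hb.smooth.continuousOn.isOpen_inter_preimage hb.isOpen isOpen_ball
  refine ⟨φ, U ∩ φ ⁻¹' ball 0 1, V ∩ ball 0 1, bpatch_mono hb hU1 inter_subset_left, ?_,
    hV.inter isOpen_ball, ⟨hpV, hp.2⟩, ?_⟩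
  · exact ⟨hU1, hb.smooth.mono inter_subset_left, fun z hz => hb.imm z hz.1, fun z hz =>
      mem_ball_zero_iff.1 hz.2⟩
  · rw [← inter_assoc, hFV]
    ext y
    constructor
    · rintro ⟨⟨⟨z, hz, rfl⟩, _⟩, h2⟩
      exact ⟨z, ⟨hz, h2⟩, rfl⟩
    · rintro ⟨z, ⟨hz, h2⟩, rfl⟩
      exact ⟨⟨⟨z, hz, rfl⟩, ball_subset_closedBall h2⟩, h2⟩

theorem lp : St_LP := by
  intro F hF
  choose! φ U V hb hP hV hpV hFV using loc_ball hF
  obtain ⟨T, hT, hTU⟩ := TopologicalSpace.isOpen_iUnion_countable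
    (fun p : {p : E4 // p ∈ F ∩ ball 0 1} => V p) (fun p => hV p p.2)
  have : Countable T := hT.to_subtype
  obtain ⟨f, hf⟩ := exists_surjective_nat (Option T)
  refine ⟨fun i => (f i).elim 0 fun t => φ t.1.1, fun i => (f i).elim ∅ fun t => U t.1.1,
    fun i => (f i).elim ∅ fun t => V t.1.1, ?_, ?_⟩
  · intro i
    rcases h : f i with _ | t
    · simp only [h, Option.elim_none]
      exact ⟨bpatch_empty, patch_empty, isOpen_empty, by simp⟩
    · simp only [h, Option.elim_some]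
      exact ⟨hb _ t.1.2, hP _ t.1.2, hV _ t.1.2, hFV _ t.1.2⟩
  · intro p hp
    have h1 : p ∈ ⋃ q : {p : E4 // p ∈ F ∩ ball 0 1}, V q :=
      mem_iUnion.2 ⟨⟨p, hp⟩, hpV p hp⟩
    rw [← hTU] at h1
    obtain ⟨t, ht, hpt⟩ := mem_iUnion₂.1 h1
    obtain ⟨i, hi⟩ := hf (some ⟨t, ht⟩)
    rw [mem_iUnion]
    refine ⟨i, ?_⟩
    simp only [hi, Option.elim_some]
    rw [← hFV t.1 t.2]
    exact ⟨hp.1, hpt⟩

end Pool.Agent.Y487.RB
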